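import Pool.Agent.Run7.h701.SP_SNICa
import Pool.Agent.Run7.h42.WN_MAXU

set_option autoImplicit false

/-!
# Project SP (helper310), part SNIC (helper701)
-/

namespace Run7.h701.SP

/-- (SNIC) the choice of the parameters, and the sample points at which the approximations hold -/
theorem t_SNIC : Run7.h310.SP.S_SNIC :=
  snic0 Run7.h42.WN.t_sup Run7.h42.WN.t_zw Run7.h42.WN.t_xw Pool.Agent.N748.MG.Inp.mea

end Run7.h701.SP
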