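import Pool.Agent.Run7.h701.SP_REDa
import Pool.Agent.Run7.h701.SP_SNIC
import Pool.Agent.N748.MG.L4
import Pool.Agent.N748.MG.MVS
import Pool.Agent.N748.MG.SIZ

set_option autoImplicit false

/-!
# Project SP (helper310), part RED (helper701)
-/

namespace Run7.h701.SP

/-- (RED) the moments of zeta at sample points in terms of the polynomials, for all real orders `0 ≤ k ≤ R` at once -/
theorem t_RED (hS : Run7.h310.SP.S_SUM) : Run7.h310.SP.S_RED :=
  red0 hS t_SNIC (Pool.Agent.N748.MG.L4.main Pool.Agent.N748.MG.MVS.main Pool.Agent.N748.MG.SIZ.main)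
    (Pool.Agent.N748.MG.CMP.main Pool.Agent.N748.MG.EUL.main)

end Run7.h701.SP
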