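import Pool.Agent.Run7.h701.SP_RED
import Pool.Agent.Run7.h310.SQ.Stm
import Pool.Agent.Run7.h270.SP.SUM

set_option autoImplicit false

/-!
# Project SQ (helper310), part CRED (helper701): the complex moments at sample points in terms of the polynomials
-/

namespace Run7.h701.SP

open Finset Filter MeasureTheory Topology Complex
open Pool.Agent.N748.MG Run7.h310.SP Run7.h42.WN

theorem four_sumc (hS : S_SUM) (hL4 : S_L4) (c R : ℝ) (hc : 0 < c) (hR : 0 ≤ R) :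
    ∃ C : ℝ, 0 < C ∧ ∀ (y : ℝ) (K : ℕ) (δ X : ℝ), 2 ≤ y → 0 < δ → δ ≤ 1 / 24 → 0 < X →
      C * ((K + 1) * Real.log y) ≤ Real.log X → ∀ S : Finset ℝ, Sep c X S → ∀ k : ℂ, ‖k‖ ≤ R →
      ∑ s ∈ S, (‖AS k y K (pw δ s)‖ ^ 2) ^ 2 ≤ C * X * δ ^ (-C) := by
  obtain ⟨CS, hCS, hSum⟩ := hS c hc
  obtain ⟨C4, hC4, hl4⟩ := hL4 R hR
  set C := CS * 2 ^ C4 + (C4 + 1) with hCd
  have h2C : 0 < (2:ℝ) ^ C4 := Real.rpow_pos_of_pos (by norm_num) _
  have hC : 0 < C := by positivity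
  refine ⟨C, hC, fun y K δ X hy hδ hδ24 hX hl S hSp k hkn => ?_⟩
  have hlog : 0 ≤ ((K:ℝ) + 1) * Real.log y := by
    have := Real.log_nonneg (show 1 ≤ y by linarith)
    positivity
  have hl' : C4 * ((K + 1) * Real.log y) ≤ Real.log X := by
    refine le_trans (mul_le_mul_of_nonneg_right ?_ hlog) hl
    have : 0 < CS * 2 ^ C4 := by positivity
    linarith
  have hB : ∀ δ' : ℝ, δ / 2 ≤ δ' → δ' ≤ 3 * δ / 2 →
      ∫ t in (0:ℝ)..X, ‖(AS k y K (pw δ' t)) ^ 2‖ ^ 2 ≤ X * (δ / 2) ^ (-C4) := by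
    intro δ' g1 g2
    have h1 := hl4 y K δ' X hy (by linarith) (by linarith) hX hl' k hkn
    have h2 : (fun t : ℝ => ‖(AS k y K (pw δ' t)) ^ 2‖ ^ 2) = fun t : ℝ => ‖AS k y K (pw δ' t)‖ ^ 4 := by
      funext t
      rw [norm_pow]
      ring
    rw [h2]
    refine h1.trans (mul_le_mul_of_nonneg_left ?_ hX.le)
    exact Real.rpow_le_rpow_of_nonpos (by linarith) g1 (by linarith)
  have h3 := hSum (fun w => (AS k y K w) ^ 2) ((AS_diff k y K).pow 2).differentiableOn δ 0 X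
    (X * (δ / 2) ^ (-C4)) hδ (by linarith) hX.le (by positivity) hB S
    (fun s hs => ⟨by linarith [hSp.lo s hs], hSp.hi s hs⟩) hSp.sep
  have h4 : ∑ s ∈ S, (‖AS k y K (pw δ s)‖ ^ 2) ^ 2 = ∑ s ∈ S, ‖(AS k y K (pw δ s)) ^ 2‖ ^ 2 := by
    refine sum_congr rfl fun s _ => ?_
    rw [norm_pow]
  rw [h4]
  refine h3.trans ?_
  have h5 : (δ / 2) ^ (-C4) = 2 ^ C4 * δ ^ (-C4) := by
    rw [Real.div_rpow hδ.le (by norm_num), Real.rpow_neg (show (0:ℝ) ≤ 2 by norm_num), div_inv_eq_mul, mul_comm]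
  have h6 : CS * (X * (δ / 2) ^ (-C4)) / δ = CS * 2 ^ C4 * X * δ ^ (-(C4 + 1)) := by
    rw [h5, neg_add, Real.rpow_add hδ, Real.rpow_neg_one]
    ring
  rw [h6]
  have h7 : δ ^ (-(C4 + 1)) ≤ δ ^ (-C) := by
    apply Real.rpow_le_rpow_of_exponent_ge hδ (by linarith)
    have : 0 < CS * 2 ^ C4 := by positivity
    linarith
  have h8 : 0 < δ ^ (-(C4 + 1)) := Real.rpow_pos_of_pos hδ _
  have h9 : CS * 2 ^ C4 ≤ C := by linarith
  calc CS * 2 ^ C4 * X * δ ^ (-(C4 + 1)) ≤ C * X * δ ^ (-(C4 + 1)) := by gcongr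
    _ ≤ C * X * δ ^ (-C) := by gcongr

theorem cred0 (hS : S_SUM) (hN : S_SNIC) (hL4 : S_L4) (hCM : S_CMP) : Run7.h310.SQ.S_CRED := by
  intro c R D hc hR hD C hC
  obtain ⟨Cf, hCf, hfour⟩ := four_sumc hS hL4 c R hc hR.le
  obtain ⟨Cc, hCc, hcmp⟩ := hCM R hR.le
  set m : ℝ := min c 1 with hmd
  have hm : 0 < m := lt_min hc one_pos
  have hmc : m ≤ c := min_le_left _ _
  have hm1 : m ≤ 1 := min_le_right _ _
  have hD' : 0 < 2 * D + Cf + 2 := by linarith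
  obtain ⟨ca, hca, hN⟩ := hN c (2 * D + Cf + 2) hc hD'
  set E0 : ℝ := Cc * (ca + 3) with hE0
  have hE00 : 0 < E0 := by positivity
  have hl54 : 0 < Real.log (5 / 4) := Real.log_pos (by norm_num)
  set e0 : ℝ := E0 + D + 1 with he0
  set Cn : ℝ := max (max C e0) (max ((e0 + E0) / Real.log (5 / 4)) Cf) with hCn
  have hCn1 : C ≤ Cn := (le_max_left _ _).trans (le_max_left _ _)
  have hCn2 : e0 ≤ Cn := (le_max_right _ _).trans (le_max_left _ _)
  have hCn3 : (e0 + E0) / Real.log (5 / 4) ≤ Cn := (le_max_left _ _).trans (le_max_right _ _)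
  have hCn4 : Cf ≤ Cn := (le_max_right _ _).trans (le_max_right _ _)
  have hCn0 : 0 < Cn := lt_of_lt_of_le hC hCn1
  have hev := hN Cn hCn0
  refine (hev.and ((Ev.of_le (d := 1 / 24) (by norm_num)).and ((Ev.small (C := 2) (c := 1) (e := m) one_pos hm).and
    (Ev.small (C := 4 * Cf) (c := 2) (e := 1) (by norm_num) one_pos)))).mono ?_
  rintro X δ hX1 hδ hδ16 ⟨⟨y, K, hy, c1, c2, c3, c4, hSN⟩, hδ24, hs1, hs2⟩
  have hL := log_inv_ge hδ hδ16
  set L := Real.log (1 / δ) with hLdef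
  have hL0 : 0 < L := by linarith
  have hX0 : 0 < X := by linarith
  have hlog : 0 ≤ ((K:ℝ) + 1) * Real.log y := by
    have := Real.log_nonneg (show 1 ≤ y by linarith)
    positivity
  have hexpL : ∀ c : ℝ, Real.exp (c * L) = δ ^ (-c) := by
    intro c
    rw [hLdef, one_div, Real.log_inv, Real.rpow_def_of_pos hδ]
    congr 1
    ring
  refine ⟨y, K, hy, (mul_le_mul_of_nonneg_right hCn1 hL0.le).trans c1,
    (mul_le_mul_of_nonneg_right hCn1 hL0.le).trans c2, (mul_le_mul_of_nonneg_right hCn1 hlog).trans c3,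
    fun S hSp => ?_⟩
  obtain ⟨G, hGS, hcard, hG⟩ := hSN S hSp
  have hδD : 0 < δ ^ D := Real.rpow_pos_of_pos hδ _
  have hexp : Real.exp (Cc * (ca * L + 2 * L + 1)) ≤ δ ^ (-E0) := by
    rw [← hexpL]
    apply Real.exp_le_exp.2
    rw [hE0]
    have h1 : Cc * 1 ≤ Cc * L := mul_le_mul_of_nonneg_left hL hCc.le
    have h2 : Cc * (ca + 3) * L - Cc * (ca * L + 2 * L + 1) = Cc * L - Cc * 1 := by ring
    linarith
  have herr : δ ^ e0 * Real.exp (Cc * (ca * L + 2 * L + 1)) ≤ δ ^ (D + 1) := by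
    calc δ ^ e0 * Real.exp (Cc * (ca * L + 2 * L + 1)) ≤ δ ^ e0 * δ ^ (-E0) :=
          mul_le_mul_of_nonneg_left hexp (Real.rpow_nonneg hδ.le _)
      _ = δ ^ (D + 1) := by
          rw [← Real.rpow_add hδ]
          congr 1
          rw [he0]
          ring
  have hD1 : δ ^ (D + 1) ≤ 1 := Real.rpow_le_one hδ.le (by linarith) (by linarith)
  have hK54 : (4 / 5 : ℝ) ^ K * Real.exp (Cc * (ca * L + 2 * L + 1)) ≤ δ ^ e0 := by
    have g2 : (4 / 5 : ℝ) ^ K ≤ δ ^ (e0 + E0) := by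
      have g3 : (4 / 5 : ℝ) ^ K = Real.exp (-(K * Real.log (5 / 4))) := by
        rw [← Real.rpow_natCast, Real.rpow_def_of_pos (by norm_num)]
        congr 1
        rw [show (4 / 5 : ℝ) = (5 / 4)⁻¹ by norm_num, Real.log_inv]
        ring
      have g4 : δ ^ (e0 + E0) = Real.exp (-((e0 + E0) * L)) := by
        have := hexpL (-(e0 + E0))
        rw [neg_neg] at this
        rw [← this]
        congr 1
        ring
      rw [g3, g4]
      apply Real.exp_le_exp.2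
      have g5 : (e0 + E0) * L ≤ K * Real.log (5 / 4) := by
        have g6 : (e0 + E0) / Real.log (5 / 4) * L ≤ K := (mul_le_mul_of_nonneg_right hCn3 hL0.le).trans c2
        have g7 := mul_le_mul_of_nonneg_right g6 hl54.le
        have g8 : (e0 + E0) / Real.log (5 / 4) * L * Real.log (5 / 4) = (e0 + E0) * L := by
          field_simp
        linarith
      linarith
    calc (4 / 5 : ℝ) ^ K * Real.exp (Cc * (ca * L + 2 * L + 1)) ≤ δ ^ (e0 + E0) * δ ^ (-E0) :=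
          mul_le_mul g2 hexp (Real.exp_pos _).le (Real.rpow_nonneg hδ.le _)
      _ = δ ^ e0 := by
          rw [← Real.rpow_add hδ]
          congr 1
          ring
  have hCne : δ ^ Cn ≤ δ ^ e0 := Real.rpow_le_rpow_of_exponent_ge hδ (by linarith) hCn2
  refine ⟨G, hGS, ?_, ?_, ?_⟩
  · refine hcard.trans (mul_le_mul_of_nonneg_right ?_ hX0.le)
    exact Real.rpow_le_rpow_of_exponent_ge hδ (by linarith) (by linarith)
  · intro s hs h0
    have h1 := (hG s hs).2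
    rw [h0, zero_mul, zero_sub, norm_neg, norm_one] at h1
    have h2 : δ ^ Cn < 1 := Real.rpow_lt_one hδ.le (by linarith) hCn0
    linarith
  · intro k hkn
    have hkn' : ‖(starRingEnd ℂ) k‖ ≤ R := by rw [Complex.norm_conj]; exact hkn
    have hpt : ∀ s ∈ G, ‖((‖riemannZeta (pw δ s)‖ : ℝ) : ℂ) ^ (2 * k) -
        AS k y K (pw δ s) * (starRingEnd ℂ) (AS ((starRingEnd ℂ) k) y K (pw δ s))‖ ≤ δ ^ (D + 1) := by
      intro s hs
      obtain ⟨h1, h2⟩ := hG s hs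
      have h3 := hcmp y K (pw δ s) (ca * L) (2 * L) (δ ^ e0) hy (half_re hδ s) h1 c4
        (Real.rpow_pos_of_pos hδ _) (h2.trans hCne) hK54 (herr.trans hD1) k hkn
      exact h3.trans herr
    have hsplit : ∑ s ∈ S, AS k y K (pw δ s) * (starRingEnd ℂ) (AS ((starRingEnd ℂ) k) y K (pw δ s)) =
        ∑ s ∈ S \ G, AS k y K (pw δ s) * (starRingEnd ℂ) (AS ((starRingEnd ℂ) k) y K (pw δ s)) +
          ∑ s ∈ G, AS k y K (pw δ s) * (starRingEnd ℂ) (AS ((starRingEnd ℂ) k) y K (pw δ s)) :=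
      (sum_sdiff hGS).symm
    have hA : ‖∑ s ∈ G, ((‖riemannZeta (pw δ s)‖ : ℝ) : ℂ) ^ (2 * k) -
        ∑ s ∈ G, AS k y K (pw δ s) * (starRingEnd ℂ) (AS ((starRingEnd ℂ) k) y K (pw δ s))‖ ≤ δ ^ D * X / 2 := by
      rw [← sum_sub_distrib]
      refine (norm_sum_le _ _).trans ((sum_le_sum hpt).trans ?_)
      rw [sum_const, nsmul_eq_mul]
      have g1 := card_le_len hm hmc hm1 hX0.le hSp
      have g2 : (G.card : ℝ) ≤ S.card := by exact_mod_cast card_le_card hGS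
      have g3 : (G.card : ℝ) * m ≤ X := (mul_le_mul_of_nonneg_right g2 hm.le).trans g1
      rw [Real.rpow_one] at hs1
      have g4 : δ ^ (D + 1) = δ ^ D * δ := by rw [Real.rpow_add hδ, Real.rpow_one]
      rw [g4]
      have g5 : (G.card : ℝ) * δ ≤ X / 2 := by
        have g6 : (G.card : ℝ) * (2 * δ) ≤ G.card * m := mul_le_mul_of_nonneg_left hs1 (Nat.cast_nonneg _)
        linarith
      calc (G.card : ℝ) * (δ ^ D * δ) = δ ^ D * (G.card * δ) := by ring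
        _ ≤ δ ^ D * (X / 2) := mul_le_mul_of_nonneg_left g5 hδD.le
        _ = δ ^ D * X / 2 := by ring
    have hBz : ∀ z : ℂ, ‖z‖ ≤ R → ∑ s ∈ S \ G, ‖AS z y K (pw δ s)‖ ^ 2 ≤ δ ^ D * X / 2 := by
      intro z hz
      have g1 := sq_sum_le_card_mul_sum_sq (s := S \ G) (f := fun s => ‖AS z y K (pw δ s)‖ ^ 2)
      have g2 : ∑ s ∈ S \ G, (‖AS z y K (pw δ s)‖ ^ 2) ^ 2 ≤ Cf * X * δ ^ (-Cf) :=
        (sum_le_sum_of_subset_of_nonneg sdiff_subset fun _ _ _ => sq_nonneg _).trans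
          (hfour y K δ X hy hδ hδ24 hX0 ((mul_le_mul_of_nonneg_right hCn4 hlog).trans c3) S hSp z hz)
      have g3 : (∑ s ∈ S \ G, ‖AS z y K (pw δ s)‖ ^ 2) ^ 2 ≤
          (δ ^ (2 * D + Cf + 2) * X) * (Cf * X * δ ^ (-Cf)) :=
        g1.trans (mul_le_mul hcard g2 (sum_nonneg fun _ _ => sq_nonneg _) (by positivity))
      have g4 : (δ ^ (2 * D + Cf + 2) * X) * (Cf * X * δ ^ (-Cf)) = (4 * Cf * δ ^ (2:ℝ)) * (δ ^ D * X / 2) ^ 2 := by
        have g5 : δ ^ (2 * D + Cf + 2) * δ ^ (-Cf) = δ ^ (2:ℝ) * (δ ^ D) ^ 2 := by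
          rw [← Real.rpow_natCast (δ ^ D), ← Real.rpow_mul hδ.le, ← Real.rpow_add hδ, ← Real.rpow_add hδ]
          congr 1
          push_cast
          ring
        calc (δ ^ (2 * D + Cf + 2) * X) * (Cf * X * δ ^ (-Cf)) =
              (δ ^ (2 * D + Cf + 2) * δ ^ (-Cf)) * (Cf * X ^ 2) := by ring
          _ = _ := by rw [g5]; ring
      rw [g4] at g3
      have g6 : (∑ s ∈ S \ G, ‖AS z y K (pw δ s)‖ ^ 2) ^ 2 ≤ (δ ^ D * X / 2) ^ 2 :=
        g3.trans (mul_le_of_le_one_left (sq_nonneg _) hs2)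
      exact abs_le_of_sq_le_sq' g6 (by positivity) |>.2
    have hB : ‖∑ s ∈ S \ G, AS k y K (pw δ s) * (starRingEnd ℂ) (AS ((starRingEnd ℂ) k) y K (pw δ s))‖ ≤
        δ ^ D * X / 2 := by
      have g1 := hBz k hkn
      have g2 := hBz _ hkn'
      refine (norm_sum_le _ _).trans ?_
      have g3 : ∑ s ∈ S \ G, ‖AS k y K (pw δ s) * (starRingEnd ℂ) (AS ((starRingEnd ℂ) k) y K (pw δ s))‖ ≤
          ∑ s ∈ S \ G, (‖AS k y K (pw δ s)‖ ^ 2 + ‖AS ((starRingEnd ℂ) k) y K (pw δ s)‖ ^ 2) / 2 := by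
        refine sum_le_sum fun s _ => ?_
        rw [norm_mul, Complex.norm_conj]
        nlinarith [sq_nonneg (‖AS k y K (pw δ s)‖ - ‖AS ((starRingEnd ℂ) k) y K (pw δ s)‖)]
      refine g3.trans ?_
      rw [← sum_div, sum_add_distrib]
      linarith
    rw [hsplit]
    have e1 : (∑ s ∈ G, ((‖riemannZeta (pw δ s)‖ : ℝ) : ℂ) ^ (2 * k)) -
        (∑ s ∈ S \ G, AS k y K (pw δ s) * (starRingEnd ℂ) (AS ((starRingEnd ℂ) k) y K (pw δ s)) +
          ∑ s ∈ G, AS k y K (pw δ s) * (starRingEnd ℂ) (AS ((starRingEnd ℂ) k) y K (pw δ s))) =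
        (∑ s ∈ G, ((‖riemannZeta (pw δ s)‖ : ℝ) : ℂ) ^ (2 * k) -
          ∑ s ∈ G, AS k y K (pw δ s) * (starRingEnd ℂ) (AS ((starRingEnd ℂ) k) y K (pw δ s))) -
        ∑ s ∈ S \ G, AS k y K (pw δ s) * (starRingEnd ℂ) (AS ((starRingEnd ℂ) k) y K (pw δ s)) := by ring
    rw [e1]
    refine (norm_sub_le _ _).trans ?_
    linarith

/-- (CRED) the complex moments at sample points in terms of the polynomials -/
theorem t_CRED : Run7.h310.SQ.S_CRED :=
  cred0 Run7.h270.SP.t_SUM t_SNIC (Pool.Agent.N748.MG.L4.main Pool.Agent.N748.MG.MVS.main Pool.Agent.N748.MG.SIZ.main)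
    (Pool.Agent.N748.MG.CMP.main Pool.Agent.N748.MG.EUL.main)

end Run7.h701.SP
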