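import Pool.Agent.Run7.h42.WN_MAXB
import Pool.Agent.Run7.h310.SP.Stm

set_option autoImplicit false

/-!
# Project SP (helper310), part SNIC (helper701): the sample points at which the approximations hold

Adapted from `Pool/Agent/N748/MG/NIC.lean` (helper82) and `Pool/Agent/Run7/h42/WN_MAXC.lean` (helper42).
-/

namespace Run7.h701.SP

open Finset Filter MeasureTheory Topology Complex
open Pool.Agent.N748.MG Run7.h310.SP Run7.h42.WN

/-- separated points whose left neighbourhoods lie in a small set are few -/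
theorem card_le {c m V : ℝ} (hm : 0 < m) (hmc : m ≤ c) (hV : 0 ≤ V) (B : Finset ℝ)
    (hB : ∀ s ∈ B, ∀ s' ∈ B, s ≠ s' → c ≤ |s - s'|) (E : Set ℝ)
    (hE : ∀ s ∈ B, Set.Ioc (s - m) s ⊆ E) (hEV : volume E ≤ ENNReal.ofReal V) :
    (B.card : ℝ) * m ≤ V := by
  have hd : (B : Set ℝ).PairwiseDisjoint fun s : ℝ => Set.Ioc (s - m) s := by
    intro s hs s' hs' hne
    have h1 := hB s hs s' hs' hne
    refine Set.disjoint_left.2 fun t ht ht' => ?_
    have h2 : |s - s'| < m := by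
      rw [abs_lt]
      constructor
      · linarith [ht.1, ht.2, ht'.1, ht'.2]
      · linarith [ht.1, ht.2, ht'.1, ht'.2]
    linarith
  have h1 : volume (⋃ s ∈ B, Set.Ioc (s - m) s) = ∑ s ∈ B, volume (Set.Ioc (s - m) s) :=
    measure_biUnion_finset hd fun s _ => measurableSet_Ioc
  have h2 : ∑ s ∈ B, volume (Set.Ioc (s - m) s) = ENNReal.ofReal ((B.card : ℝ) * m) := by
    have h3 : ∀ s ∈ B, volume (Set.Ioc (s - m) s) = ENNReal.ofReal m := by
      intro s _
      rw [Real.volume_Ioc]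
      congr 1
      ring
    rw [sum_congr rfl h3, sum_const, nsmul_eq_mul, ENNReal.ofReal_mul (Nat.cast_nonneg _),
      ENNReal.ofReal_natCast]
  have h4 : volume (⋃ s ∈ B, Set.Ioc (s - m) s) ≤ ENNReal.ofReal V :=
    (measure_mono (Set.iUnion₂_subset hE)).trans hEV
  rw [h1, h2] at h4
  exact (ENNReal.ofReal_le_ofReal_iff hV).1 h4

theorem snic0 (hS : T_SUP) (hZ : T_ZW) (hX : T_XW) (hM : S_MEA) : S_SNIC := by
  intro c D hc hD
  obtain ⟨CS, hCS, hSup⟩ := hS
  obtain ⟨a0, b0, ha0, hb0, δx, hδx, hδx16, evx⟩ := hX (D + 1) (by linarith)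
  refine ⟨a0, ha0, fun C hC => ?_⟩
  obtain ⟨a1, b1, ha1, hb1, lam1, δ1, hδ1, hδ116, ev1⟩ := hZ (2 * C + D + 2) (by linarith)
  obtain ⟨Cm, hCm, mert⟩ := hM
  set m : ℝ := min c 1 with hmd
  have hm : 0 < m := lt_min hc one_pos
  have hmc : m ≤ c := min_le_left _ _
  have hm1 : m ≤ 1 := min_le_right _ _
  set C1 := max (max C a1) 1 with hC1
  set C2 := max (max C b1) 1 with hC2
  have hC1C : C ≤ C1 := (le_max_left _ _).trans (le_max_left _ _)
  have hC1a : a1 ≤ C1 := (le_max_right _ _).trans (le_max_left _ _)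
  have hC11 : 1 ≤ C1 := le_max_right _ _
  have hC2C : C ≤ C2 := (le_max_left _ _).trans (le_max_left _ _)
  have hC2b : b1 ≤ C2 := (le_max_right _ _).trans (le_max_left _ _)
  have hC21 : 1 ≤ C2 := le_max_right _ _
  set lamB := C * (C2 + 2) * C1 + 100 * (C2 + 2) * C1 + b0 * C1 + |lam1| with hlamB
  have hd3 : 0 < Real.exp (-(2 * (Real.log C1 + Cm))) := Real.exp_pos _
  have E := (Ev.of_ev ev1).and ((Ev.of_ev evx).and ((Ev.of_le hδ1).and ((Ev.of_le hδx).and
    ((Ev.of_le hd3).and ((Ev.lam lamB).and (Ev.linv.and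
      ((Ev.win (D := D) (c := m / 9) (e := 1 / 10) (by positivity) (by norm_num)).and
      ((Ev.small (C := 9) (c := 1) (e := m) one_pos hm).and
      (Ev.small (C := 9 * CS) (c := 1) (e := m) one_pos hm)))))))))
  refine E.mono ?_
  clear E
  rintro X δ hX1 hδ hδ16 ⟨h1, hx, hd1, hdx, hdd, hlam, hlinv, hwin, hs1, hs2⟩
  have hL := log_inv_ge hδ hδ16
  set L := Real.log (1 / δ) with hLdef
  have hL0 : 0 < L := by linarith
  have hLL : L ≤ L ^ 2 := by nlinarith
  set ly := C1 * L / δ with hly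
  have hly0 : 0 < ly := by positivity
  have hδly : δ * ly = C1 * L := by rw [hly]; field_simp
  -- bounds for `log X`
  have hb1' : C * (C2 + 2) * C1 * L ^ 2 ≤ δ * Real.log X := by
    refine le_trans (mul_le_mul_of_nonneg_right ?_ (sq_nonneg L)) hlam
    have : 0 ≤ 100 * (C2 + 2) * C1 + b0 * C1 + |lam1| := by positivity
    rw [hlamB]; linarith
  have hb2' : 100 * (C2 + 2) * C1 * L ^ 2 ≤ δ * Real.log X := by
    refine le_trans (mul_le_mul_of_nonneg_right ?_ (sq_nonneg L)) hlam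
    have : 0 ≤ C * (C2 + 2) * C1 + b0 * C1 + |lam1| := by positivity
    rw [hlamB]; linarith
  have hb3' : b0 * C1 * L ^ 2 ≤ δ * Real.log X := by
    refine le_trans (mul_le_mul_of_nonneg_right ?_ (sq_nonneg L)) hlam
    have : 0 ≤ C * (C2 + 2) * C1 + 100 * (C2 + 2) * C1 + |lam1| := by positivity
    rw [hlamB]; linarith
  have hb4' : lam1 * L ≤ δ * Real.log X := by
    have h5 : |lam1| * L ^ 2 ≤ δ * Real.log X := by
      refine le_trans (mul_le_mul_of_nonneg_right ?_ (sq_nonneg L)) hlam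
      have : 0 ≤ C * (C2 + 2) * C1 + 100 * (C2 + 2) * C1 + b0 * C1 := by positivity
      rw [hlamB]; linarith
    refine le_trans ?_ h5
    calc lam1 * L ≤ |lam1| * L := mul_le_mul_of_nonneg_right (le_abs_self _) hL0.le
      _ ≤ |lam1| * L ^ 2 := mul_le_mul_of_nonneg_left hLL (abs_nonneg _)
  have hly_of : ∀ c : ℝ, 0 ≤ c → c * C1 * L ^ 2 ≤ δ * Real.log X → c * L * ly ≤ Real.log X := by
    intro c hc h
    have : c * L * ly = c * C1 * L ^ 2 / δ := by rw [hly]; ring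
    rw [this, div_le_iff₀ hδ]
    linarith
  -- the parameters
  set K : ℕ := ⌈C2 * L⌉₊ with hK
  have hK1 : C2 * L ≤ K := Nat.le_ceil _
  have hK2 : (K : ℝ) + 1 ≤ (C2 + 2) * L := by
    have := Nat.ceil_lt_add_one (show 0 ≤ C2 * L by positivity)
    rw [← hK] at this
    have e : (C2 + 2) * L = C2 * L + 2 * L := by ring
    rw [e]
    linarith only [this, hL]
  set y := Real.exp ly with hy
  have hlogy : Real.log y = ly := Real.log_exp _
  have hly16 : 16 ≤ ly := by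
    rw [hly, le_div_iff₀ hδ]
    have : 1 ≤ C1 * L := one_le_mul_of_one_le_of_one_le hC11 hL
    linarith only [this, hδ16]
  have hy3 : 3 ≤ y := by
    have := Real.add_one_le_exp ly
    rw [← hy] at this
    linarith
  have hy2 : 2 ≤ y := by linarith
  have c2 : C * L ≤ δ * Real.log y := by
    rw [hlogy, hδly]
    exact mul_le_mul_of_nonneg_right hC1C hL0.le
  have c3 : C * L ≤ K := (mul_le_mul_of_nonneg_right hC2C hL0.le).trans hK1
  have c4 : C * ((K + 1) * Real.log y) ≤ Real.log X := by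
    rw [hlogy]
    refine le_trans ?_ (hly_of (C * (C2 + 2)) (by positivity) hb1')
    calc C * (((K : ℝ) + 1) * ly) ≤ C * (((C2 + 2) * L) * ly) :=
          mul_le_mul_of_nonneg_left (mul_le_mul_of_nonneg_right hK2 hly0.le) hC.le
      _ = C * (C2 + 2) * L * ly := by ring
  have c5 : ∑ p ∈ PA y, 1 / (p:ℝ) ≤ 2 * L := by
    refine (mert y hy3).trans ?_
    rw [hlogy, hly, Real.log_div (by positivity) hδ.ne', Real.log_mul (by positivity) hL0.ne']
    have e1 : Real.log δ = -L := by rw [hLdef, one_div, Real.log_inv, neg_neg]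
    have e2 := NIC.log_le_half hL
    have e3 : 2 * (Real.log C1 + Cm) ≤ L := by
      have := Real.log_le_log hδ hdd
      rw [Real.log_exp, e1] at this
      linarith
    rw [e1]
    linarith
  have c6 : K * Real.log y ≤ Real.log X / 100 := by
    rw [hlogy]
    have h6 := hly_of (100 * (C2 + 2)) (by positivity) hb2'
    have h7 : (K : ℝ) * ly ≤ (C2 + 2) * L * ly :=
      mul_le_mul_of_nonneg_right (by linarith) hly0.le
    linarith
  have c7 : a1 * L ≤ δ * Real.log y := by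
    rw [hlogy, hδly]
    exact mul_le_mul_of_nonneg_right hC1a hL0.le
  have c8 : b1 * L ≤ K := (mul_le_mul_of_nonneg_right hC2b hL0.le).trans hK1
  have c9 : b0 * L * Real.log y ≤ Real.log X := by
    rw [hlogy]
    exact hly_of b0 hb0.le hb3'
  have hX0 : 0 < X := by linarith
  set X9 := X ^ ((9:ℝ) / 10) with hX9
  have hX91 : 1 ≤ X9 := Real.one_le_rpow hX1 (by norm_num)
  have hX9X : X9 ≤ X := by
    calc X9 ≤ X ^ (1 : ℝ) := Real.rpow_le_rpow_of_exponent_le hX1 (by norm_num)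
      _ = X := Real.rpow_one X
  have hX12 : (1:ℝ) ≤ X ^ ((1:ℝ) / 2) := Real.one_le_rpow hX1 (by norm_num)
  have hmean := h1 δ hδ hd1 hb4' y K hy2 c7 c8 c6
  have hB2 := hSup (fun s => riemannZeta s * AS (-1) y K s - 1) (F_diff y K) δ X9 (2 * X)
    (X * δ ^ (2 * C + D + 2)) hδ hδ16 (by linarith) (by positivity) hmean 1 (δ ^ C) zero_le_one
    (Real.rpow_pos_of_pos hδ _)
  have hB1 := hx δ hδ hdx y hy2 c9 hlinv 1 zero_le_one hX12
  -- the exceptional set
  set B1 : Set ℝ := {t : ℝ | X9 + 1 ≤ t ∧ t ≤ X ∧ ∃ u : ℝ, t ≤ u ∧ u ≤ t + 1 ∧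
      a0 * L < ‖∑ p ∈ PA y, (p:ℂ) ^ (-(pw δ u))‖} with hB1d
  set B2 : Set ℝ := {t : ℝ | X9 + 1 ≤ t ∧ t + 1 + 1 ≤ 2 * X ∧ ∃ u : ℝ, t ≤ u ∧ u ≤ t + 1 ∧
      δ ^ C ≤ ‖riemannZeta (pw δ u) * AS (-1) y K (pw δ u) - 1‖} with hB2d
  have hδD : 0 < δ ^ D := Real.rpow_pos_of_pos hδ _
  have hδD1 : δ ^ (D + 1) = δ ^ D * δ := by rw [Real.rpow_add hδ, Real.rpow_one]
  have hDX : 0 < δ ^ D * X := mul_pos hδD hX0
  rw [Real.rpow_one] at hs1 hs2
  have v0 : volume (Set.Icc 0 (X9 + 2)) ≤ ENNReal.ofReal (m * (δ ^ D * X) / 3) := by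
    rw [Real.volume_Icc, sub_zero]
    refine ENNReal.ofReal_le_ofReal ?_
    have h8 : δ ^ (-D) * X9 ≤ m / 9 * X := by
      calc δ ^ (-D) * X9 ≤ (m / 9 * X ^ ((1:ℝ) / 10)) * X9 :=
            mul_le_mul_of_nonneg_right hwin (by linarith)
        _ = m / 9 * (X ^ ((1:ℝ) / 10) * X ^ ((9:ℝ) / 10)) := by rw [hX9]; ring
        _ = m / 9 * X := by
            rw [← Real.rpow_add hX0]; norm_num
    have h9 : X9 ≤ δ ^ D * (m / 9 * X) := by
      calc X9 = δ ^ D * (δ ^ (-D) * X9) := by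
            rw [← mul_assoc, ← Real.rpow_add hδ, add_neg_cancel, Real.rpow_zero, one_mul]
        _ ≤ δ ^ D * (m / 9 * X) := mul_le_mul_of_nonneg_left h8 hδD.le
    have h10 : X9 + 2 ≤ 3 * X9 := by linarith
    have h11 : 3 * (δ ^ D * (m / 9 * X)) = m * (δ ^ D * X) / 3 := by ring
    linarith
  have v1 : volume B1 ≤ ENNReal.ofReal (m * (δ ^ D * X) / 3) := by
    refine hB1.trans (ENNReal.ofReal_le_ofReal ?_)
    have h8 : (1 + 2) * X * δ ^ (D + 1) = 9 * δ * (δ ^ D * X) / 3 := by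
      rw [hδD1]
      ring
    rw [h8]
    have h9 := mul_le_mul_of_nonneg_right hs1 hDX.le
    linarith
  have v2 : volume B2 ≤ ENNReal.ofReal (m * (δ ^ D * X) / 3) := by
    refine hB2.trans (ENNReal.ofReal_le_ofReal ?_)
    have e1 : (δ ^ C) ^ 2 = δ ^ (2 * C) := by
      rw [← Real.rpow_natCast, ← Real.rpow_mul hδ.le]
      congr 1
      push_cast
      ring
    have e2 : δ ^ (2 * C + D + 2) = (δ * δ ^ (2 * C)) * (δ ^ D * δ) := by
      rw [← hδD1]
      have : δ * δ ^ (2 * C) = δ ^ (1 + 2 * C) := by rw [Real.rpow_add hδ, Real.rpow_one]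
      rw [this, ← Real.rpow_add hδ]
      congr 1
      ring
    have hp : 0 < δ * δ ^ (2 * C) := mul_pos hδ (Real.rpow_pos_of_pos hδ _)
    rw [e1, e2]
    have h8 : CS * (1 + 2) * (X * ((δ * δ ^ (2 * C)) * (δ ^ D * δ))) / (δ * δ ^ (2 * C)) =
        9 * CS * δ * (δ ^ D * X) / 3 := by
      field_simp
      ring
    rw [h8]
    have h9 := mul_le_mul_of_nonneg_right hs2 hDX.le
    linarith
  have vE : volume (Set.Icc 0 (X9 + 2) ∪ (B1 ∪ B2)) ≤ ENNReal.ofReal (m * (δ ^ D * X)) := by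
    have hq : 0 ≤ m * (δ ^ D * X) / 3 := by positivity
    calc volume (Set.Icc 0 (X9 + 2) ∪ (B1 ∪ B2))
        ≤ volume (Set.Icc 0 (X9 + 2)) + volume (B1 ∪ B2) := measure_union_le _ _
      _ ≤ volume (Set.Icc 0 (X9 + 2)) + (volume B1 + volume B2) := by
          gcongr; exact measure_union_le _ _
      _ ≤ ENNReal.ofReal (m * (δ ^ D * X) / 3) +
          (ENNReal.ofReal (m * (δ ^ D * X) / 3) + ENNReal.ofReal (m * (δ ^ D * X) / 3)) := by gcongr
      _ = ENNReal.ofReal (m * (δ ^ D * X)) := by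
          rw [← ENNReal.ofReal_add hq hq, ← ENNReal.ofReal_add hq (by linarith)]
          congr 1
          ring
  refine ⟨y, K, hy2, c2, c3, c4, c5, fun S hSp => ?_⟩
  classical
  refine ⟨S.filter fun s => ‖∑ p ∈ PA y, (p:ℂ) ^ (-(pw δ s))‖ ≤ a0 * L ∧
    ‖riemannZeta (pw δ s) * AS (-1) y K (pw δ s) - 1‖ ≤ δ ^ C, filter_subset _ _, ?_, fun s hs => (mem_filter.1 hs).2⟩
  set B : Finset ℝ := S \ S.filter (fun s => ‖∑ p ∈ PA y, (p:ℂ) ^ (-(pw δ s))‖ ≤ a0 * L ∧
    ‖riemannZeta (pw δ s) * AS (-1) y K (pw δ s) - 1‖ ≤ δ ^ C) with hBd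
  have hBS : ∀ s ∈ B, s ∈ S ∧ (‖∑ p ∈ PA y, (p:ℂ) ^ (-(pw δ s))‖ ≤ a0 * L →
      δ ^ C < ‖riemannZeta (pw δ s) * AS (-1) y K (pw δ s) - 1‖) := by
    intro s hs
    have hs1 := Finset.mem_sdiff.1 hs
    refine ⟨hs1.1, fun h => ?_⟩
    by_contra hcon
    push Not at hcon
    exact hs1.2 (mem_filter.2 ⟨hs1.1, h, hcon⟩)
  have hcard := card_le (c := c) (m := m) (V := m * (δ ^ D * X)) hm hmc (by positivity) B
    (fun s hs s' hs' hne => hSp.sep s (hBS s hs).1 s' (hBS s' hs').1 hne)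
    (Set.Icc 0 (X9 + 2) ∪ (B1 ∪ B2)) (by
      intro s hs t ht
      obtain ⟨hsS, hbad⟩ := hBS s hs
      have hlo := hSp.lo s hsS
      have hhi := hSp.hi s hsS
      obtain ⟨ht1, ht2⟩ := ht
      by_cases h : s < X9 + 2
      · exact Or.inl ⟨by linarith, by linarith⟩
      · push Not at h
        right
        by_cases hg : ‖∑ p ∈ PA y, (p:ℂ) ^ (-(pw δ s))‖ ≤ a0 * L
        · exact Or.inr ⟨by linarith, by linarith, s, ht2, by linarith, (hbad hg).le⟩
        · push Not at hg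
          exact Or.inl ⟨by linarith, by linarith, s, ht2, by linarith, hg⟩) vE
  have h1 : (B.card : ℝ) * m ≤ (δ ^ D * X) * m := by linarith
  exact le_of_mul_le_mul_right h1 hm

end Run7.h701.SP
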